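import Mathlib
import Pool.Agent.LRO63.F2

/-!
# Long-range order of the `O(N)` model for every `N ≥ 2`, up to squared logarithms

Definitions:
* in `Pool.Agent.helper36.IsingDefs`: `killedProb G i j k s` is `P_s (X_k = i, k < H_j)` for the
  simple random walk on `G`; `visits G i j s` is `u_{ij}(s)`, the expected number of visits to `i`
  before hitting `j`; `greenMax G` is `M_G`, the maximum over `i ≠ j` of `u_{ij}(i) / d(i)`;
* in `Pool.Agent.helper71.XY.Defs`: `Sph N` is the unit sphere of `ℝ^N`, `surf N` its surface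
  measure, `dot` the scalar product of two spins, `interaction G σ` the sum of `σ_i · σ_j` over the
  edges of `G`, and `twoPoint G N β x y` is `E_{G,N,β} σ_x · σ_y`.
-/

open scoped ENNReal

namespace Pool.Agent.Results.MP_364654_pr.EveryN

open Pool.Agent.helper36.IsingDefs (greenMax)
open Pool.Agent.helper71.XY.Defs

/-- For every `N ≥ 2` there is a constant `C` such that on every finite graph `G`, for every set
`S` of vertices such that `G[S]` is connected with `M_{G[S]} ≤ M`, all `x, y` in `S` and all
`β ≥ C (1 + M) (1 + log |S|)²` satisfy `E σ_x · σ_y ≥ 1 - C (1 + M) / β`. -/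
theorem result (N : ℕ) (hN : 2 ≤ N) : ∃ C : ℝ, 0 < C ∧
    ∀ (V : Type) [Fintype V] [DecidableEq V] (G : SimpleGraph V) [DecidableRel G.Adj]
      (S : Finset V) (M : ℝ), 0 < M → 2 ≤ S.card → (G.induce (S : Set V)).Connected →
      greenMax (G.induce (S : Set V)) ≤ ENNReal.ofReal M →
      ∀ β : ℝ, C * (1 + M) * (1 + Real.log S.card) ^ 2 ≤ β → ∀ x ∈ S, ∀ y ∈ S,
        1 - C * (1 + M) / β ≤ twoPoint G N β x y :=
  Pool.Agent.LRO63.main N hN

end Pool.Agent.Results.MP_364654_pr.EveryN
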