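import Mathlib
import Pool.Agent.helper36.IsingPeierls

/-!
# The case `N = 1` (Ising model) of the long-range order question

Definitions are in `Pool.Agent.helper36.IsingDefs`:
* `killedProb G i j k s` is `P_s (X_k = i, k < H_j)` for simple random walk on `G`;
* `visits G i j s` is `u_{ij}(s)`, the expected number of visits to `i` before hitting `j`;
* `greenMax G` is `M_G`, the maximum over `i ≠ j` of `u_{ij}(i) / d(i)`;
* `twoPoint G β x y` is `E_{G,1,β} σ_x σ_y` for the Ising model with weights
  `exp (β * ∑_{edges} σ_i σ_j)`.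
-/

namespace Pool.Agent.Results.MP_364654_pr.IsingLongRangeOrder

open Pool.Agent.helper36.IsingDefs

/-- For every `M` there are `C` and `β₀` such that on every finite connected graph with
`M_G ≤ M` all two point functions at `β > β₀` are at least `1 - C e^{-2β}`; in particular the
question has a positive answer for `N = 1`. -/
theorem result :
    (∀ M : ℝ, 0 < M → ∃ C β₀ : ℝ, 0 < C ∧
      ∀ (V : Type) [Fintype V] [DecidableEq V] (G : SimpleGraph V) [DecidableRel G.Adj],
        G.Connected → 2 ≤ Fintype.card V → greenMax G ≤ ENNReal.ofReal M →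
          ∀ (x y : V) (β : ℝ), β₀ < β →
            1 - C * Real.exp (-2 * β) ≤ twoPoint G β x y) ∧
    (∀ ε M : ℝ, 0 < ε → 0 < M → ∃ βc : ℝ,
      ∀ (V : Type) [Fintype V] [DecidableEq V] (G : SimpleGraph V) [DecidableRel G.Adj],
        G.Connected → 2 ≤ Fintype.card V → greenMax G ≤ ENNReal.ofReal M →
          ∀ (x y : V) (β : ℝ), βc < β → 1 - ε ≤ twoPoint G β x y) := by
  have h1 : ∀ M : ℝ, 0 < M → ∃ C β₀ : ℝ, 0 < C ∧
      ∀ (V : Type) [Fintype V] [DecidableEq V] (G : SimpleGraph V) [DecidableRel G.Adj],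
        G.Connected → 2 ≤ Fintype.card V → greenMax G ≤ ENNReal.ofReal M →
          ∀ (x y : V) (β : ℝ), β₀ < β →
            1 - C * Real.exp (-2 * β) ≤ twoPoint G β x y := by
    intro M _
    set M' := max M 1 with hM'
    have hM1 : 1 ≤ M' := le_max_right _ _
    have hk := Pool.Agent.helper36.IsingKey.kap_ge M' hM1
    refine ⟨2 * M' * Pool.Agent.helper36.IsingKey.kap M' ^ 4,
      2 * Real.log (Pool.Agent.helper36.IsingKey.kap M'), by positivity, ?_⟩
    intro V _ _ G _ hconn hcard hG x y β hβ
    have hV : Nontrivial V := Fintype.one_lt_card_iff_nontrivial.1 (by omega)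
    exact Pool.Agent.helper36.IsingPeierls.main G hconn hV M' hM1
      (hG.trans (ENNReal.ofReal_le_ofReal (le_max_left _ _))) β hβ.le x y
  refine ⟨h1, ?_⟩
  intro ε M hε hM
  obtain ⟨C, β₀, hC, h⟩ := h1 M hM
  refine ⟨max β₀ (-(Real.log (ε / C)) / 2), ?_⟩
  intro V _ _ G _ hconn hcard hG x y β hβ
  have h2 := h V G hconn hcard hG x y β (lt_of_le_of_lt (le_max_left _ _) hβ)
  have h3 : -(Real.log (ε / C)) / 2 < β := lt_of_le_of_lt (le_max_right _ _) hβ
  have h4 : Real.exp (-2 * β) ≤ ε / C := by
    have h5 : -2 * β ≤ Real.log (ε / C) := by linarith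
    calc Real.exp (-2 * β) ≤ Real.exp (Real.log (ε / C)) := Real.exp_le_exp.2 h5
      _ = ε / C := Real.exp_log (by positivity)
  have h6 : C * Real.exp (-2 * β) ≤ ε := by
    calc C * Real.exp (-2 * β) ≤ C * (ε / C) := mul_le_mul_of_nonneg_left h4 hC.le
      _ = ε := by field_simp
  linarith

end Pool.Agent.Results.MP_364654_pr.IsingLongRangeOrder
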