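import Mathlib
import Pool.Agent.helper21.ON.Final

/-!
# The case `N = 4` of the long-range order question

Definitions:
* in `Pool.Agent.helper36.IsingDefs`: `killedProb G i j k s` is `P_s (X_k = i, k < H_j)` for the
  simple random walk on `G`; `visits G i j s` is `u_{ij}(s)`, the expected number of visits to `i`
  before hitting `j`; `greenMax G` is `M_G`, the maximum over `i ≠ j` of `u_{ij}(i) / d(i)`;
* in `Pool.Agent.helper71.XY.Defs`: `Sph N` is the unit sphere of `ℝ^N`, `surf N` its surface
  measure, `dot` the scalar product of two spins, `interaction G σ` the sum of `σ_i · σ_j` over the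
  edges of `G`, and `twoPoint G N β x y` is `E_{G,N,β} σ_x · σ_y`.
-/

namespace Pool.Agent.Results.MP_364654_pr.O4LongRangeOrder

open Pool.Agent.helper36.IsingDefs (greenMax)
open Pool.Agent.helper71.XY.Defs

/-- For `N = 4`: if `M_G ≤ M` and `β > 16 M` then `E σ_x · σ_y ≥ 1 - 5 M / β` for all `x, y`; in
particular the question has a positive answer for `N = 4`. -/
theorem result :
    (∀ M : ℝ, 0 < M →
      ∀ (V : Type) [Fintype V] [DecidableEq V] (G : SimpleGraph V) [DecidableRel G.Adj],
        G.Connected → 2 ≤ Fintype.card V → greenMax G ≤ ENNReal.ofReal M →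
          ∀ (x y : V) (β : ℝ), 16 * M < β →
            1 - 5 * M / β ≤ twoPoint G 4 β x y) ∧
    (∀ ε M : ℝ, 0 < ε → 0 < M → ∃ βc : ℝ,
      ∀ (V : Type) [Fintype V] [DecidableEq V] (G : SimpleGraph V) [DecidableRel G.Adj],
        G.Connected → 2 ≤ Fintype.card V → greenMax G ≤ ENNReal.ofReal M →
          ∀ (x y : V) (β : ℝ), βc < β → 1 - ε ≤ twoPoint G 4 β x y) := by
  have h1 : ∀ M : ℝ, 0 < M →
      ∀ (V : Type) [Fintype V] [DecidableEq V] (G : SimpleGraph V) [DecidableRel G.Adj],
        G.Connected → 2 ≤ Fintype.card V → greenMax G ≤ ENNReal.ofReal M →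
          ∀ (x y : V) (β : ℝ), 16 * M < β →
            1 - 5 * M / β ≤ twoPoint G 4 β x y := by
    intro M hM V _ _ G _ hconn hcard hG x y β hβ
    exact Pool.Agent.helper21.ON.main4 G hconn hcard M hM hG β hβ x y
  refine ⟨h1, ?_⟩
  intro ε M hε hM
  refine ⟨max (16 * M) (5 * M / ε), ?_⟩
  intro V _ _ G _ hconn hcard hG x y β hβ
  have h2 := h1 M hM V G hconn hcard hG x y β (lt_of_le_of_lt (le_max_left _ _) hβ)
  have h3 : 5 * M / ε < β := lt_of_le_of_lt (le_max_right _ _) hβ
  have hβ0 : 0 < β := lt_trans (by positivity) h3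
  have h4 : 5 * M / β ≤ ε := by
    rw [div_lt_iff₀ hε] at h3
    rw [div_le_iff₀ hβ0]
    linarith
  linarith

end Pool.Agent.Results.MP_364654_pr.O4LongRangeOrder
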